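import Mathlib
import Pool.Agent.X99.CK.JMomA
import Pool.Agent.X99.CK.Mq

/-!
# MP_788af2_nt: the average rank of the twists of `X_0(49)` by the sums of two squares, and all the
mixed moments of the Selmer ranks of several twists
-/

set_option autoImplicit false
set_option linter.unusedSectionVars false
set_option linter.style.haveILetI false

open Filter

namespace Pool.Agent.Results.MP_788af2_nt.AverageRankSumsOfTwoSquares

/-- the odd squarefree sums of two squares -/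
def 𝒟 : Set ℕ := {D : ℕ | Squarefree D ∧ Odd D ∧ ∃ x y : ℕ, D = x ^ 2 + y ^ 2}

/-- the squarefree part of `m D` for squarefree `m`, `D` -/
def tw (m D : ℕ) : ℕ := m * D / (Nat.gcd m D) ^ 2

/-- the coefficients of the twist `y² = x³ - 35 D² x - 98 D³` by `D` of `X_0(49)` -/
def co (D : ℕ) : ℤ × ℤ := (-35 * (D : ℤ) ^ 2, -98 * (D : ℤ) ^ 3)

/-- the pairs `(A, B)` of the problem -/
def 𝓕 : Set (ℤ × ℤ) := {c | 4 * c.1 ^ 3 + 27 * c.2 ^ 2 ≠ 0 ∧
  ∀ p : ℕ, p.Prime → ¬ ((p : ℤ) ^ 4 ∣ c.1 ∧ (p : ℤ) ^ 6 ∣ c.2)}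

/-- the height `max (4 |A|³) (27 B²)` -/
def height (c : ℤ × ℤ) : ℕ := max (4 * c.1.natAbs ^ 3) (27 * c.2.natAbs ^ 2)

/-- the curve `y² = x³ + A x + B` -/
def E (c : ℤ × ℤ) : WeierstrassCurve ℚ :=
  { a₁ := 0, a₂ := 0, a₃ := 0, a₄ := (c.1 : ℚ), a₆ := (c.2 : ℚ) }

/-- the rank of the twist by `D` -/
noncomputable def rk (D : ℕ) : ℕ := Module.finrank ℤ (E (co D)).toAffine.Point

/-- `N² = b₁ M⁴ + a M² e² + (b/b₁) e⁴` has a solution with `(M, e) ≠ (0, 0)` in `K` -/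
def Solv (K : Type) [Field K] (a b b₁ : ℤ) : Prop :=
  ∃ N M e : K, (M ≠ 0 ∨ e ≠ 0) ∧
    N ^ 2 = (b₁ : K) * M ^ 4 + (a : K) * M ^ 2 * e ^ 2 + ((b / b₁ : ℤ) : K) * e ^ 4

/-- the squarefree `b₁ ∣ b` for which this quartic is everywhere locally solvable: the classes of the
Selmer group of the isogeny dual to `(x, y) ↦ (x + a + b/x, y (1 - b/x²))` of `y² = x³ + a x² + b x` -/
def F (a b : ℤ) : Set ℤ :=
  {b₁ : ℤ | Squarefree b₁ ∧ b₁ ∣ b ∧ Solv ℝ a b b₁ ∧ ∀ (p : ℕ) [Fact p.Prime], Solv ℚ_[p] a b b₁}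

/-- the Selmer rank `f₁ + f₂ - 2`, where `2 ^ f₁` and `2 ^ f₂` are the orders of the two 2-isogeny Selmer
groups of the twist by `D` with the equation `y² = x³ + 21 D x² + 112 D² x` -/
noncomputable def s (D : ℕ) : ℕ :=
  Nat.log 2 (F (21 * (D : ℤ)) (112 * (D : ℤ) ^ 2)).ncard +
    Nat.log 2 (F (-2 * (21 * (D : ℤ))) ((21 * (D : ℤ)) ^ 2 - 4 * (112 * (D : ℤ) ^ 2))).ncard - 2

/-- the average of `f` over the `D ∈ 𝒟` for which the height of the twist by `D` is at most `X` -/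
noncomputable def average (f : ℕ → ℝ) (X : ℕ) : ℝ :=
  (∑ᶠ D ∈ {D : ℕ | D ∈ 𝒟 ∧ height (co D) ≤ X}, f D) /
    ({D : ℕ | D ∈ 𝒟 ∧ height (co D) ≤ X}.ncard : ℝ)

/-- the probabilities `c / ∏_{i ≤ k} (2^i - 1)`, `c = ∏_{i ≥ 0} (1 - 2^(-2i-1))` -/
noncomputable def prob (k : ℕ) : ℝ :=
  (∏' i : ℕ, (1 - (1 / 2 : ℝ) ^ (2 * i + 1))) / ∏ i ∈ Finset.Icc 1 k, ((2 : ℝ) ^ i - 1)

/-- `g` is of polynomial growth -/
def Poly {ι : Type} [Fintype ι] (g : (ι → ℕ) → ℝ) : Prop :=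
  ∃ (C : ℝ) (j : ℕ), ∀ r : ι → ℕ, |g r| ≤ C * (1 + ((∑ i, r i : ℕ) : ℝ)) ^ j

open Pool.Agent.X99.CK Pool.Agent.X99.C49

theorem cf_prod (k : ℕ) : Pool.Agent.Y697.PQ.cf k = 1 / ∏ i ∈ Finset.Icc 1 k, ((2 : ℝ) ^ i - 1) := by
  induction k with
  | zero => simp [Pool.Agent.Y697.PQ.cf]
  | succ k ih =>
    rw [Finset.prod_Icc_succ_top (by omega), Pool.Agent.Y697.PQ.cf, ih, div_div]

theorem prob_eq (k : ℕ) : prob k = pr k := by
  unfold prob pr
  rw [cf_prod, Pool.Agent.Y697.CJ.gi_eq, mul_one_div]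
  rfl

theorem mem_𝒟 {D : ℕ} : D ∈ 𝒟 ↔ Fam D := fam_two D

theorem height_eq (D : ℕ) : height (co D) = 259308 * D ^ 6 := by
  unfold height co
  have e1 : (-35 * (D : ℤ) ^ 2).natAbs = 35 * D ^ 2 := by
    rw [Int.natAbs_mul, Int.natAbs_pow, Int.natAbs_natCast]
    rfl
  have e2 : (-98 * (D : ℤ) ^ 3).natAbs = 98 * D ^ 3 := by
    rw [Int.natAbs_mul, Int.natAbs_pow, Int.natAbs_natCast]
    rfl
  rw [e1, e2, max_eq_right]
  · ring
  · have h1 : 4 * (35 * D ^ 2) ^ 3 = 171500 * D ^ 6 := by ring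
    have h2 : 27 * (98 * D ^ 3) ^ 2 = 259308 * D ^ 6 := by ring
    rw [h1, h2]
    exact Nat.mul_le_mul_right _ (by norm_num)

/-- the largest twist of height at most `X` -/
def nX (X : ℕ) : ℕ := Nat.findGreatest (fun n => 259308 * n ^ 6 ≤ X) X

theorem le_nX {D X : ℕ} : 259308 * D ^ 6 ≤ X ↔ D ≤ nX X := by
  constructor
  · intro h
    refine Nat.le_findGreatest ?_ h
    rcases Nat.eq_zero_or_pos D with rfl | hD
    · exact Nat.zero_le _
    · calc D = D ^ 1 := (pow_one D).symm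
        _ ≤ D ^ 6 := Nat.pow_le_pow_right hD (by norm_num)
        _ ≤ 259308 * D ^ 6 := Nat.le_mul_of_pos_left _ (by norm_num)
        _ ≤ X := h
  · intro h
    have h1 : 259308 * (nX X) ^ 6 ≤ X :=
      Nat.findGreatest_spec (P := fun n => 259308 * n ^ 6 ≤ X) (Nat.zero_le X) (by simp)
    exact (Nat.mul_le_mul_left _ (Nat.pow_le_pow_left h 6)).trans h1

theorem nX_top : Tendsto nX atTop atTop := by
  refine tendsto_atTop.2 fun n => ?_
  filter_upwards [eventually_ge_atTop (259308 * n ^ 6)] with X hX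
  exact le_nX.1 hX

theorem set_eq (X : ℕ) : {D : ℕ | D ∈ 𝒟 ∧ height (co D) ≤ X} = ((TT (nX X) : Finset ℕ) : Set ℕ) := by
  ext D
  rw [Finset.mem_coe, mem_TT, Set.mem_ofPred_eq, height_eq, le_nX, mem_𝒟]
  constructor
  · rintro ⟨h1, h2⟩
    exact ⟨⟨Nat.pos_of_ne_zero h1.1.ne_zero, h2⟩, h1⟩
  · rintro ⟨⟨-, h2⟩, h1⟩
    exact ⟨h1, h2⟩

theorem average_eq (f : ℕ → ℝ) (X : ℕ) : average f X = av f (nX X) := by
  classical
  unfold average av
  rw [set_eq, finsum_mem_coe_finset, Set.ncard_coe_finset]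
  have e : TT (nX X) = (Finset.Icc 1 (nX X)).filter fun D => Fam D := by
    ext D
    rw [mem_TT, Finset.mem_filter, Finset.mem_Icc]
  rw [e]

theorem s_eq {D : ℕ} (h : Fam D) : s D = 2 * kk D := by
  obtain ⟨h1, h2⟩ := sel_card h
  rw [nK_kk, ← pow_succ'] at h1 h2
  have e1 : -2 * (21 * (D : ℤ)) = -42 * (D : ℤ) := by ring
  have e2 : (21 * (D : ℤ)) ^ 2 - 4 * (112 * (D : ℤ) ^ 2) = -7 * (D : ℤ) ^ 2 := by ring
  have h3 : (F (21 * (D : ℤ)) (112 * (D : ℤ) ^ 2)).ncard = 2 ^ (kk D + 1) := h1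
  have h4 : (F (-42 * (D : ℤ)) (-7 * (D : ℤ) ^ 2)).ncard = 2 ^ (kk D + 1) := h2
  unfold s
  rw [e1, e2, h3, h4, Nat.log_pow (by norm_num)]
  omega

theorem rk_le {D : ℕ} (h : Fam D) : rk D ≤ 2 * kk D := rank_ES h

theorem minimal {D : ℕ} (h : Fam D) : co D ∈ 𝓕 := by
  have hD0 : (D : ℤ) ≠ 0 := by exact_mod_cast h.1.ne_zero
  refine ⟨?_, fun p hp hdv => ?_⟩
  · have e : 4 * (-35 * (D : ℤ) ^ 2) ^ 3 + 27 * (-98 * (D : ℤ) ^ 3) ^ 2 =
        (4 * (-35) ^ 3 + 27 * (-98) ^ 2) * (D : ℤ) ^ 6 := by ring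
    show 4 * (-35 * (D : ℤ) ^ 2) ^ 3 + 27 * (-98 * (D : ℤ) ^ 3) ^ 2 ≠ 0
    rw [e]
    exact mul_ne_zero (by norm_num) (pow_ne_zero 6 hD0)
  · obtain ⟨h1, -⟩ := hdv
    have h1' : (p : ℤ) ^ 4 ∣ -35 * (D : ℤ) ^ 2 := h1
    have h2 : p ^ 4 ∣ 35 * D ^ 2 := by
      have h3 := Int.natAbs_dvd_natAbs.2 h1'
      rwa [Int.natAbs_mul, Int.natAbs_pow, Int.natAbs_natCast, Int.natAbs_pow,
        Int.natAbs_natCast] at h3
    -- `p` divides `D` exactly once at most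
    by_cases hpD : p ∣ D
    · obtain ⟨e, rfl⟩ := hpD
      have hpe : ¬ p ∣ e := by
        intro h3
        obtain ⟨e', rfl⟩ := h3
        have := h.1 p ⟨e', by ring⟩
        exact hp.one_lt.ne' (Nat.isUnit_iff.1 this)
      have h4 : p ^ 2 * p ^ 2 ∣ p ^ 2 * (35 * e ^ 2) := by
        have e1 : p ^ 2 * p ^ 2 = p ^ 4 := by ring
        have e2 : p ^ 2 * (35 * e ^ 2) = 35 * (p * e) ^ 2 := by ring
        rw [e1, e2]
        exact h2
      have h5 : p ^ 2 ∣ 35 * e ^ 2 := Nat.dvd_of_mul_dvd_mul_left (pow_pos hp.pos 2) h4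
      have h6 : p ^ 2 ∣ 35 :=
        (Nat.Coprime.pow 2 2 ((hp.coprime_iff_not_dvd).2 hpe)).dvd_of_dvd_mul_right h5
      have h7 : p ≤ 5 := by
        have := Nat.le_of_dvd (by norm_num) h6
        nlinarith
      interval_cases p <;> omega
    · have h3 : p ^ 4 ∣ 35 :=
        (Nat.Coprime.pow 4 2 ((hp.coprime_iff_not_dvd).2 hpD)).dvd_of_dvd_mul_right h2
      have h7 : p ≤ 5 := by
        have := Nat.le_of_dvd (by norm_num) h3
        by_contra h8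
        have h9 : 6 ^ 4 ≤ p ^ 4 := Nat.pow_le_pow_left (by omega) 4
        omega
      interval_cases p <;> omega

theorem poly_two {ι : Type} [Fintype ι] {g : (ι → ℕ) → ℝ} (hg : Poly g) :
    ∃ (C : ℝ) (j : ℕ), ∀ r : ι → ℕ, |g fun i => 2 * r i| ≤
      C * (1 + ((∑ i, r i : ℕ) : ℝ)) ^ j := by
  obtain ⟨C, j, h⟩ := hg
  have hC : 0 ≤ C := by
    have h1 := (abs_nonneg _).trans (h 0)
    simp at h1
    exact h1
  refine ⟨C * 2 ^ j, j, fun r => (h _).trans ?_⟩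
  rw [mul_assoc, ← mul_pow]
  refine mul_le_mul_of_nonneg_left ?_ hC
  refine pow_le_pow_left₀ (by positivity) ?_ j
  have h0 : (0 : ℝ) ≤ ((∑ i, r i : ℕ) : ℝ) := Nat.cast_nonneg _
  rw [← Finset.mul_sum]
  push_cast at h0 ⊢
  linarith

theorem joint {𝓜 : Finset ℕ} (hM : ∀ m ∈ 𝓜, m ∈ 𝒟) {g : (𝓜 → ℕ) → ℝ} (hg : Poly g) :
    Tendsto (average fun D => g fun m => s (tw m D)) atTop
      (nhds (∑' r : 𝓜 → ℕ, (g fun m => 2 * r m) * ∏ m, prob (r m))) := by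
  obtain ⟨C, j, h⟩ := poly_two hg
  have h1 := (joint_mom (fun m hm => mem_𝒟.1 (hM m hm)) h).comp nX_top
  have h2 : ∑' r : 𝓜 → ℕ, (g fun m => 2 * r m) * ∏ m, prob (r m) =
      ∑' r : 𝓜 → ℕ, (g fun m => 2 * r m) * ∏ m, pr (r m) :=
    tsum_congr fun r => by
      congr 1
      exact Finset.prod_congr rfl fun i _ => prob_eq _
  rw [h2]
  refine h1.congr fun X => ?_
  rw [average_eq]
  refine av_congr (fun D hD => ?_) _
  congr 1
  funext m
  exact (s_eq (fam_star (mem_𝒟.1 (hM m m.2)) hD)).symm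

theorem joint_rk {𝓜 : Finset ℕ} (hM : ∀ m ∈ 𝓜, m ∈ 𝒟) {g : (𝓜 → ℕ) → ℝ} (hg : Poly g)
    (hmon : Monotone g) {ε : ℝ} (hε : 0 < ε) : ∀ᶠ X : ℕ in atTop,
      average (fun D => g fun m => rk (tw m D)) X ≤
        ∑' r : 𝓜 → ℕ, (g fun m => 2 * r m) * ∏ m, prob (r m) + ε := by
  filter_upwards [(joint hM hg).eventually (gt_mem_nhds (lt_add_of_pos_right _ hε))] with X hX
  refine le_trans ?_ hX.le
  rw [average_eq, average_eq]
  refine av_mono (fun D hD => hmon fun m => ?_) _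
  have hF := fam_star (mem_𝒟.1 (hM m m.2)) hD
  show rk (Pool.Agent.X99.GJ.star m D) ≤ s (Pool.Agent.X99.GJ.star m D)
  rw [s_eq hF]
  exact rk_le hF

/-- **The average rank in the family of the twists of `X_0(49)` by the odd squarefree sums of two
squares, ordered by height.** Let `E_D : y² = x³ - 35 D² x - 98 D³`, `D ∈ 𝒟`, with rank `rk D` and
Selmer rank `s D`.
(1) The pair of `E_D` is in `𝓕`, `rk D ≤ s D`, the number of the `D ∈ 𝒟` with height of `E_D` at most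
`X` is finite and tends to infinity, and `tw m D ∈ 𝒟` for `m, D ∈ 𝒟`.
(2) The numbers `prob k` are positive with sum `1`; `0.4194 < prob 0 < 0.4195`, and
`μ = ∑ k prob k` satisfies `2 μ < 1.53`.
(3) The average of the Selmer rank is `2 μ`, and the average of its `j`-th power is
`∑ (2 k) ^ j prob k` for all `j`.
(4) The upper average rank in the family is at most `2 μ < 1.53`; the upper average of the `j`-th
power of the rank is at most `∑ (2 k) ^ j prob k`.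
(5) For every finite set `𝓜 ⊆ 𝒟` and every function `g` of polynomial growth of the Selmer ranks of
the twists `E_{tw m D}`, `m ∈ 𝓜`, the average of `g` over `D` exists and is the expectation of
`g (2 k_m)_m` for independent `k_m` with the law `prob`; if `g` is nondecreasing then the same bound
from above holds for the function `g` of the ranks. -/
theorem result :
    ((∀ D ∈ 𝒟, co D ∈ 𝓕 ∧ rk D ≤ s D) ∧ (∀ m ∈ 𝒟, ∀ D ∈ 𝒟, tw m D ∈ 𝒟) ∧
      (∀ X, {D : ℕ | D ∈ 𝒟 ∧ height (co D) ≤ X}.Finite) ∧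
      Tendsto (fun X => {D : ℕ | D ∈ 𝒟 ∧ height (co D) ≤ X}.ncard) atTop atTop) ∧
    ((∀ k, 0 < prob k) ∧ HasSum prob 1 ∧ 0.4194 < prob 0 ∧ prob 0 < 0.4195 ∧
      (∀ j : ℕ, Summable fun k : ℕ => (2 * (k : ℝ)) ^ j * prob k) ∧
      2 * ∑' k : ℕ, (k : ℝ) * prob k < 1.53) ∧
    (Tendsto (average fun D => (s D : ℝ)) atTop (nhds (2 * ∑' k : ℕ, (k : ℝ) * prob k)) ∧
      ∀ j : ℕ, Tendsto (average fun D => (s D : ℝ) ^ j) atTop
        (nhds (∑' k : ℕ, (2 * (k : ℝ)) ^ j * prob k))) ∧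
    ((∀ ε : ℝ, 0 < ε → ∀ᶠ X : ℕ in atTop, average (fun D => (rk D : ℝ)) X ≤
        2 * ∑' k : ℕ, (k : ℝ) * prob k + ε) ∧
      (∀ᶠ X : ℕ in atTop, average (fun D => (rk D : ℝ)) X < 1.53) ∧
      ∀ j : ℕ, ∀ ε : ℝ, 0 < ε → ∀ᶠ X : ℕ in atTop, average (fun D => (rk D : ℝ) ^ j) X ≤
        ∑' k : ℕ, (2 * (k : ℝ)) ^ j * prob k + ε) ∧
    ∀ (𝓜 : Finset ℕ), (∀ m ∈ 𝓜, m ∈ 𝒟) → ∀ g : (𝓜 → ℕ) → ℝ, Poly g →
      (Summable fun r : 𝓜 → ℕ => (g fun m => 2 * r m) * ∏ m, prob (r m)) ∧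
      Tendsto (average fun D => g fun m => s (tw m D)) atTop
        (nhds (∑' r : 𝓜 → ℕ, (g fun m => 2 * r m) * ∏ m, prob (r m))) ∧
      (Monotone g → ∀ ε : ℝ, 0 < ε → ∀ᶠ X : ℕ in atTop,
        average (fun D => g fun m => rk (tw m D)) X ≤
          ∑' r : 𝓜 → ℕ, (g fun m => 2 * r m) * ∏ m, prob (r m) + ε) := by
  have hpe : prob = pr := funext prob_eq
  have hb := (Pool.Agent.Y948.CQ.c2_main Pool.Agent.Y697.PQ.gi Pool.Agent.Y697.CJ.gi_eq).2
  have hp0 : prob 0 = Pool.Agent.Y697.PQ.gi := by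
    rw [hpe]
    show Pool.Agent.Y697.PQ.gi * Pool.Agent.Y697.PQ.cf 0 = _
    rw [show Pool.Agent.Y697.PQ.cf 0 = 1 from rfl, mul_one]
  have hmu : ∑' k : ℕ, (k : ℝ) * prob k = mu := by rw [hpe]; rfl
  have hj : ∀ j : ℕ, Tendsto (average fun D => (s D : ℝ) ^ j) atTop
        (nhds (∑' k : ℕ, (2 * (k : ℝ)) ^ j * prob k)) := by
    intro j
    have h := (mom_one (g := fun k => (2 * (k : ℝ)) ^ j) (C := 2 ^ j) (j := j) (fun r => by
      have h0 : (0 : ℝ) ≤ r := Nat.cast_nonneg r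
      rw [abs_of_nonneg (by positivity), ← mul_pow]
      exact pow_le_pow_left₀ (by positivity) (by linarith) j)).comp nX_top
    rw [hpe]
    refine h.congr fun X => ?_
    rw [average_eq]
    refine av_congr (fun D hD => ?_) _
    rw [s_eq hD]
    push_cast
    rfl
  have hone : Tendsto (average fun D => (s D : ℝ)) atTop
      (nhds (2 * ∑' k : ℕ, (k : ℝ) * prob k)) := by
    have h := hj 1
    simp only [pow_one] at h
    rw [← tsum_mul_left]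
    refine h.trans (le_of_eq ?_)
    congr 1
    exact tsum_congr fun k => by ring
  have hle : ∀ j X, average (fun D => (rk D : ℝ) ^ j) X ≤ average (fun D => (s D : ℝ) ^ j) X := by
    intro j X
    rw [average_eq, average_eq]
    refine av_mono (fun D hD => ?_) _
    refine pow_le_pow_left₀ (Nat.cast_nonneg _) (Nat.cast_le.2 ?_) j
    rw [s_eq hD]
    exact rk_le hD
  have hle1 : ∀ X, average (fun D => (rk D : ℝ)) X ≤ average (fun D => (s D : ℝ)) X := by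
    intro X
    have := hle 1 X
    simpa only [pow_one] using this
  refine ⟨⟨fun D hD => ⟨minimal (mem_𝒟.1 hD), ?_⟩, fun m hm D hD => ?_, fun X => ?_, ?_⟩,
    ⟨fun k => ?_, ?_, ?_, ?_, fun j => ?_, ?_⟩, ⟨hone, hj⟩, ⟨fun ε hε => ?_, ?_, fun j ε hε => ?_⟩,
    fun 𝓜 hM g hg => ⟨?_, joint hM hg, fun hmon ε hε => joint_rk hM hg hmon hε⟩⟩
  · rw [s_eq (mem_𝒟.1 hD)]
    exact rk_le (mem_𝒟.1 hD)
  · exact mem_𝒟.2 (fam_star (mem_𝒟.1 hm) (mem_𝒟.1 hD))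
  · rw [set_eq]
    exact Finset.finite_toSet _
  · have h1 : ∀ N : ℕ, ∃ Y : ℕ, N ≤ (TT Y).card := by
      intro N
      obtain ⟨Y, hY⟩ : ∃ Y : ℕ, ∀ m ∈ F0 N, m ≤ Y := ⟨(F0 N).sup id, fun m hm =>
        Finset.le_sup (f := id) hm⟩
      refine ⟨Y, ?_⟩
      rw [← F0_card N]
      refine Finset.card_le_card fun m hm => ?_
      rw [mem_TT]
      have hF : Fam m := F0_fam hm
      exact ⟨⟨Nat.pos_of_ne_zero hF.1.ne_zero, hY m hm⟩, hF⟩
    refine tendsto_atTop.2 fun N => ?_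
    obtain ⟨Y, hY⟩ := h1 N
    filter_upwards [nX_top.eventually (eventually_ge_atTop Y)] with X hX
    rw [set_eq, Set.ncard_coe_finset]
    refine hY.trans (Finset.card_le_card fun m hm => ?_)
    rw [mem_TT] at hm ⊢
    exact ⟨⟨hm.1.1, hm.1.2.trans hX⟩, hm.2⟩
  · rw [hpe]
    exact mul_pos hb.1 (Pool.Agent.Y697.PQ.cf_pos k)
  · rw [hpe]
    exact hasSum_pr
  · rw [hp0]
    exact hb.2.2.1
  · rw [hp0]
    exact hb.2.2.2
  · rw [hpe]
    refine ((summ_mu j).mul_left (2 ^ j)).congr fun k => ?_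
    rw [mul_pow]
    ring
  · rw [hmu]
    exact mu_lt
  · filter_upwards [hone.eventually (gt_mem_nhds (lt_add_of_pos_right _ hε))] with X hX
    exact (hle1 X).trans hX.le
  · have h1 : 2 * ∑' k : ℕ, (k : ℝ) * prob k < 1.53 := by
      rw [hmu]
      exact mu_lt
    filter_upwards [hone.eventually (gt_mem_nhds h1)] with X hX
    exact (hle1 X).trans_lt hX
  · filter_upwards [(hj j).eventually (gt_mem_nhds (lt_add_of_pos_right _ hε))] with X hX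
    exact (hle j X).trans hX.le
  · obtain ⟨C, j, h⟩ := poly_two hg
    refine (summ_g h).congr fun r => ?_
    congr 1
    exact Finset.prod_congr rfl fun i _ => (prob_eq _).symm

end Pool.Agent.Results.MP_788af2_nt.AverageRankSumsOfTwoSquares
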