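import Pool.Agent.Results.MP_157626_nt.UnbalancedPencils
import Pool.Agent.X257.AE.Pencil
import Pool.Agent.X257.AE.Point

/-!
# The average rank in pencils of elliptic curves at the prefixes of almost every real number

For a real number `α` and a base `b ≥ 2` the integers `t_n = ⌊α b ^ n⌋`, `n = 1, 2, ...`, are the
prefixes of the expansion of `α` in base `b`. We show: for almost every real `α`, for ALL pencils
`W_t : y² = x (x - D(t) u₀(t)) (x - D(t) u₁(t))` of elliptic curves with full 2-torsion under the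
condition `2 n_k + s_k ≤ n₀ + n₁ + n₂` on the numbers `n_k` of irreducible factors of
`u₀`, `u₁`, `u₂ = u₀ - u₁` and the numbers `s_k` of those with split multiplicative reduction (for example
the Legendre family `d y² = x (x - 1) (x - t)`, `d`, `-d` not squares), and all bases `b`, the average
rank of the curves `W_t` at `t = t_n` (logarithmic means over `n`) is bounded by a constant which depends
only on the pencil, the same is true for `(2 ^ rank * #Ш[2 ^ k] ^ (1 / k)) ^ (1 / 2)`, and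
`2 ^ rank * #Ш[2 ^ k] ^ (1 / k) ≤ n ^ (1 + ε)` for all large `n`. For the prefixes of lengths
`s_0, s_1, ...` with `s_(j + 1) ≥ 2 s_j` the ordinary means are bounded.
-/

set_option autoImplicit false

namespace Pool.Agent.Results.MP_788af2_nt.PrefixAverages

open Finset Polynomial Filter MeasureTheory

open Pool.Agent.TH841.SH.D (Sha ShaTor rk)

/-- the curve `y² = x (x - A) (x - B)` over `ℚ` -/
def E (A B : ℤ) : WeierstrassCurve ℚ := ⟨0, -((A : ℚ) + B), 0, (A : ℚ) * B, 0⟩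

/-- `v` is a square modulo `f`, over the rationals -/
def SqMod (f v : ℤ[X]) : Prop := ∃ q : ℚ[X], f.map (Int.castRingHom ℚ) ∣
  (q ^ 2 - v.map (Int.castRingHom ℚ))

/-- the data of a pencil: integers `a_k`, polynomials `f_{k,i}` (`k = 0, 1, 2`, `i < n_k`), and `D` -/
structure Pencil where
  /-- numbers of factors -/
  n : Fin 3 → ℕ
  /-- constants -/
  a : Fin 3 → ℤ
  /-- factors -/
  f : ∀ k : Fin 3, Fin (n k) → ℤ[X]
  /-- the twisting polynomial -/
  D : ℤ[X]

namespace Pencil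

/-- `u_k = a_k ∏ f_{k,i}` -/
noncomputable def u (P : Pencil) (k : Fin 3) : ℤ[X] := C (P.a k) * ∏ i, P.f k i

/-- the fibre `W_t : y² = x (x - D(t) u₀(t)) (x - D(t) u₁(t))` -/
noncomputable def fib (P : Pencil) (t : ℤ) : WeierstrassCurve ℚ :=
  E ((P.D * P.u 0).eval t) ((P.D * P.u 1).eval t)

/-- modulo a factor `f` of `u_k`, the curve `y² = x (x - D u₀) (x - D u₁)` has a node whose tangent
directions are the square roots of `v_k`; so the reduction at `f` is split if and only if `v_k` is a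
square modulo `f` -/
noncomputable def v (P : Pencil) : Fin 3 → ℤ[X] :=
  ![-(P.D * P.u 1), -(P.D * P.u 0), P.D * P.u 0]

open Classical in
/-- the number of the factors of `u_k` with split multiplicative reduction -/
noncomputable def s (P : Pencil) (k : Fin 3) : ℕ :=
  (univ.filter (fun i => SqMod (P.f k i) (P.v k))).card

/-- `u₀ - u₁ = u₂`, the `a_k` are not zero, the `f_{k,i}` are irreducible of positive degree, pairwise
not associated, and do not divide `D ≠ 0`, and `2 n_k + s_k ≤ n₀ + n₁ + n₂` -/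
structure Ok (P : Pencil) : Prop where
  a_ne : ∀ k, P.a k ≠ 0
  irr : ∀ k i, Irreducible (P.f k i) ∧ 0 < (P.f k i).natDegree
  not_assoc : ∀ k i l j, (⟨k, i⟩ : Σ k : Fin 3, Fin (P.n k)) ≠ ⟨l, j⟩ →
    ¬ Associated (P.f k i) (P.f l j)
  sub : P.u 0 - P.u 1 = P.u 2
  D_ne : P.D ≠ 0
  not_dvd : ∀ k i, ¬ P.f k i ∣ P.D
  bal : ∀ k, 2 * P.n k + P.s k ≤ P.n 0 + P.n 1 + P.n 2

/-- the fibre at `t` is an elliptic curve -/
def Smooth (P : Pencil) (t : ℤ) : Prop := ∀ k, (P.D * P.u k).eval t ≠ 0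

open Classical in
/-- the rank of the fibre at `t`, zero for a singular fibre -/
noncomputable def rank (P : Pencil) (t : ℤ) : ℕ := if P.Smooth t then rk (P.fib t) else 0

open Classical in
/-- `2 ^ rank * #Ш[2 ^ k] ^ (1 / k)` for the fibre at `t`, zero for a singular fibre -/
noncomputable def size (P : Pencil) (k : ℕ) (t : ℤ) : ℝ :=
  if P.Smooth t then (2 : ℝ) ^ rk (P.fib t) *
    (Nat.card (ShaTor (P.fib t) (2 ^ k)) : ℝ) ^ ((1 : ℝ) / k) else 0

end Pencil

/-- the logarithmic means of `f(1), f(2), ...` have an upper limit at most `c` -/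
def LogMeanLe (f : ℕ → ℝ) (c : ℝ) : Prop := ∀ ε : ℝ, 0 < ε → ∀ᶠ x : ℕ in atTop,
  ∑ n ∈ Icc 1 x, f n / (n : ℝ) ≤ (c + ε) * Real.log x

/-- the means of `f(0), f(1), ...` have an upper limit at most `c` -/
def MeanLe (f : ℕ → ℝ) (c : ℝ) : Prop := ∀ ε : ℝ, 0 < ε → ∀ᶠ x : ℕ in atTop,
  ∑ j ∈ range x, f j ≤ (c + ε) * x

/-! ### Proof -/

instance : Countable Pencil := by
  have h : Function.Injective (fun P : Pencil => (⟨P.n, P.a, P.f, P.D⟩ :
      Σ n : Fin 3 → ℕ, (Fin 3 → ℤ) × (∀ k : Fin 3, Fin (n k) → ℤ[X]) × ℤ[X])) := by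
    rintro ⟨n, a, f, D⟩ ⟨n', a', f', D'⟩ h
    simp only [Sigma.mk.injEq] at h
    obtain ⟨rfl, h⟩ := h
    simp only [heq_eq_eq, Prod.mk.injEq] at h
    obtain ⟨rfl, rfl, rfl⟩ := h
    rfl
  exact h.countable

theorem size_nonneg (P : Pencil) (k : ℕ) (t : ℤ) : 0 ≤ P.size k t := by
  unfold Pencil.size
  split_ifs <;> positivity

theorem exC (P : Pencil) : ∃ C : ℝ, 0 ≤ C ∧ (P.Ok →
    (∀ t, P.Smooth t → ∀ k : ℕ, Finite (ShaTor (P.fib t) (2 ^ k))) ∧
    ∀ k : ℕ, 1 ≤ k → Pool.Agent.X257.AE.Avg (P.size k) C 1) := by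
  classical
  by_cases hP : P.Ok
  swap
  · exact ⟨0, le_rfl, fun h => absurd h hP⟩
  obtain ⟨C, hC⟩ := Pool.Agent.Results.MP_157626_nt.UnbalancedPencils.result P.n P.a P.f P.D
    hP.a_ne hP.irr hP.not_assoc hP.sub hP.D_ne hP.not_dvd hP.bal 3
  have hav : ∀ k : ℕ, 1 ≤ k → Pool.Agent.X257.AE.Avg (P.size k) C 1 := by
    intro k hk N M hM hN
    have h1 := (hC N M hM hN).2.1 k hk
    refine le_trans (le_of_eq ?_) h1
    unfold Pencil.size Pool.Agent.Results.MP_157626_nt.UnbalancedPencils.Par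
    rw [sum_filter]
    refine sum_congr rfl fun t _ => ?_
    exact if_congr Iff.rfl rfl rfl
  refine ⟨C, Pool.Agent.X257.AE.avg_nonneg (size_nonneg P 1) (hav 1 le_rfl), fun _ =>
    ⟨fun t ht k => ?_, hav⟩⟩
  have hz : ((t.natAbs + 1 : ℕ) : ℤ) = |t| + 1 := by
    push_cast
    rfl
  have ht0 := abs_nonneg t
  have ht1 := neg_abs_le t
  have ht2 := le_abs_self t
  have hN : |t - 1| ≤ ((t.natAbs + 1 : ℕ) : ℤ) ^ 3 := by
    rw [hz]
    have h1 : |t - 1| ≤ |t| + 1 := abs_le.2 ⟨by linarith, by linarith⟩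
    have h3 : |t| + 1 ≤ (|t| + 1) ^ 3 := le_self_pow₀ (by linarith) (by norm_num)
    exact h1.trans h3
  refine (hC (t - 1) (t.natAbs + 1) (by omega) hN).1 t ?_ k
  unfold Pool.Agent.Results.MP_157626_nt.UnbalancedPencils.Par
  rw [mem_filter, mem_Ioc]
  refine ⟨⟨by linarith, ?_⟩, ht⟩
  rw [hz]
  linarith

theorem rank_le (P : Pencil) (hfin : ∀ t, P.Smooth t → ∀ k : ℕ, Finite (ShaTor (P.fib t) (2 ^ k)))
    (t : ℤ) : (P.rank t : ℝ) ≤ 2 * Real.sqrt (P.size 1 t) := by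
  classical
  unfold Pencil.rank Pencil.size
  by_cases ht : P.Smooth t
  swap
  · rw [if_neg ht, if_neg ht]
    simp
  rw [if_pos ht, if_pos ht]
  have := hfin t ht 1
  have hne : (1 : ℝ) ≤ Nat.card (ShaTor (P.fib t) (2 ^ 1)) := by
    have : Nonempty (ShaTor (P.fib t) (2 ^ 1)) := ⟨⟨0, by simp⟩⟩
    exact_mod_cast Nat.card_pos
  set r := rk (P.fib t)
  have h1 : (2 : ℝ) ^ r ≤ (2 : ℝ) ^ r *
      (Nat.card (ShaTor (P.fib t) (2 ^ 1)) : ℝ) ^ ((1 : ℝ) / (1 : ℕ)) := by
    refine le_mul_of_one_le_right (by positivity) ?_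
    exact Real.one_le_rpow hne (by norm_num)
  refine le_trans ?_ (mul_le_mul_of_nonneg_left (Real.sqrt_le_sqrt h1) (by norm_num))
  have h2 : ((r : ℝ)) ^ 2 ≤ 4 * 2 ^ r := by
    have h3 : ∀ m : ℕ, m ^ 2 ≤ 4 * 2 ^ m := by
      intro m
      have h4 : ∀ j : ℕ, (j + 4) ^ 2 ≤ 2 ^ (j + 4) := by
        intro j
        induction j with
        | zero => norm_num
        | succ j ih =>
          have h5 : 2 ^ (j + 1 + 4) = 2 * 2 ^ (j + 4) := by ring
          have h6 : (j + 1 + 4) ^ 2 ≤ 2 * (j + 4) ^ 2 := by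
            have h7 : 2 * (j + 4) ^ 2 = (j + 1 + 4) ^ 2 + (j ^ 2 + 6 * j + 7) := by ring
            rw [h7]
            exact Nat.le_add_right _ _
          rw [h5]
          exact h6.trans (Nat.mul_le_mul_left 2 ih)
      rcases lt_or_ge m 4 with hm | hm
      · interval_cases m <;> norm_num
      · obtain ⟨j, rfl⟩ : ∃ j, m = j + 4 := ⟨m - 4, by omega⟩
        have := h4 j
        omega
    exact_mod_cast h3 r
  have h5 : (r : ℝ) = Real.sqrt ((r : ℝ) ^ 2) := (Real.sqrt_sq (Nat.cast_nonneg r)).symm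
  have h6 : (2 : ℝ) * Real.sqrt ((2 : ℝ) ^ r) = Real.sqrt (4 * 2 ^ r) := by
    rw [Real.sqrt_mul (by norm_num)]
    congr 1
    rw [show (4 : ℝ) = 2 ^ 2 by norm_num, Real.sqrt_sq (by norm_num)]
  rw [h5, h6]
  exact Real.sqrt_le_sqrt h2

/-- **Theorem.** Consider the pencils `W_t : y² = x (x - D(t) u₀(t)) (x - D(t) u₁(t))` which satisfy the
conditions `Ok`. (1) All the groups `Ш(W_t)[2 ^ k]` are finite. There are constants `C(P)` such that:
(2) for almost every real `α`, for all these pencils `P` and all bases `b ≥ 2`: the logarithmic means of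
the ranks of the fibres at `t = ⌊α b ^ n⌋`, `n = 1, 2, ...`, have an upper limit at most `C(P)`; for all
`k ≥ 1` the logarithmic means of `(2 ^ rank * #Ш[2 ^ k] ^ (1 / k)) ^ (1 / 2)` have an upper limit at most
`C(P)`, and for all `ε > 0` all these fibres with `n` large have
`2 ^ rank * #Ш[2 ^ k] ^ (1 / k) ≤ n ^ (1 + ε)`; (3) for all sequences `s` with `s_0 ≥ 1`,
`s_(j + 1) ≥ 2 s_j`, for almost every real `α`, for all `P` and `b`, the means of the ranks, and of
`(2 ^ rank * #Ш[2 ^ k] ^ (1 / k)) ^ (1 / 2)`, of the fibres at `t = ⌊α b ^ s_j⌋`, `j = 0, 1, ...`, have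
upper limits at most `C(P)`. -/
theorem result :
    (∀ P : Pencil, P.Ok → ∀ t, P.Smooth t → ∀ k : ℕ, Finite (ShaTor (P.fib t) (2 ^ k))) ∧
    ∃ C : Pencil → ℝ,
      (∀ᵐ α : ℝ, ∀ P : Pencil, P.Ok → ∀ b : ℕ, 2 ≤ b →
        LogMeanLe (fun n => (P.rank ⌊α * (b : ℝ) ^ n⌋ : ℝ)) (C P) ∧
        ∀ k : ℕ, 1 ≤ k → LogMeanLe (fun n => Real.sqrt (P.size k ⌊α * (b : ℝ) ^ n⌋)) (C P) ∧
          ∀ ε : ℝ, 0 < ε → ∀ᶠ n : ℕ in atTop,
            P.size k ⌊α * (b : ℝ) ^ n⌋ ≤ (n : ℝ) ^ (1 + ε)) ∧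
      ∀ s : ℕ → ℕ, 1 ≤ s 0 → (∀ j, 2 * s j ≤ s (j + 1)) →
        ∀ᵐ α : ℝ, ∀ P : Pencil, P.Ok → ∀ b : ℕ, 2 ≤ b →
          MeanLe (fun j => (P.rank ⌊α * (b : ℝ) ^ s j⌋ : ℝ)) (C P) ∧
          ∀ k : ℕ, 1 ≤ k → MeanLe (fun j => Real.sqrt (P.size k ⌊α * (b : ℝ) ^ s j⌋)) (C P) := by
  classical
  choose C hC0 hC using exC
  refine ⟨fun P hP => (hC P hP).1, fun P => 2 * (1 + C P), ?_, fun s hs0 hs => ?_⟩
  · rw [ae_all_iff]
    intro P
    by_cases hP : P.Ok
    swap
    · exact Eventually.of_forall fun α h => absurd h hP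
    simp only [hP, forall_true_left]
    obtain ⟨hfin, hav⟩ := hC P hP
    have h1 : ∀ᵐ α : ℝ, ∀ k : ℕ, 1 ≤ k → ∀ b : ℕ, 2 ≤ b →
        (∀ ε : ℝ, 0 < ε → ∀ᶠ x : ℕ in atTop,
          ∑ n ∈ Icc 1 x, Real.sqrt (P.size k (Pool.Agent.X257.AE.pre b n α)) / (n : ℝ) ≤
            (1 + C P + ε) * Real.log x) ∧
        ∀ ε : ℝ, 0 < ε → ∀ᶠ n : ℕ in atTop,
          P.size k (Pool.Agent.X257.AE.pre b n α) ≤ (n : ℝ) ^ (1 + ε) := by
      rw [ae_all_iff]
      intro k
      by_cases hk : 1 ≤ k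
      swap
      · exact Eventually.of_forall fun α h => absurd h hk
      simp only [hk, forall_true_left]
      filter_upwards [Pool.Agent.X257.AE.ae_sqrt (size_nonneg P k) (hav k hk),
        Pool.Agent.X257.AE.ae_point_rpow (size_nonneg P k) (hav k hk)] with α h2 h3 b hb
      exact ⟨h2 b hb, h3 b hb⟩
    filter_upwards [h1] with α hα b hb
    refine ⟨fun ε hε => ?_, fun k hk => ⟨fun ε hε => ?_, fun ε hε => ?_⟩⟩
    · filter_upwards [(hα 1 le_rfl b hb).1 (ε / 2) (by positivity)] with x hx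
      have h2 : ∑ n ∈ Icc 1 x, (P.rank ⌊α * (b : ℝ) ^ n⌋ : ℝ) / (n : ℝ) ≤
          2 * ∑ n ∈ Icc 1 x, Real.sqrt (P.size 1 (Pool.Agent.X257.AE.pre b n α)) / (n : ℝ) := by
        rw [mul_sum]
        refine sum_le_sum fun n _ => ?_
        rw [← mul_div_assoc]
        exact div_le_div_of_nonneg_right (rank_le P hfin _) (Nat.cast_nonneg n)
      refine h2.trans ((mul_le_mul_of_nonneg_left hx (by norm_num)).trans (le_of_eq ?_))
      ring
    · filter_upwards [(hα k hk b hb).1 ε hε] with x hx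
      refine hx.trans (mul_le_mul_of_nonneg_right ?_ (Real.log_natCast_nonneg x))
      have := hC0 P
      linarith
    · filter_upwards [(hα k hk b hb).2 ε hε] with n hn
      exact hn
  · rw [ae_all_iff]
    intro P
    by_cases hP : P.Ok
    swap
    · exact Eventually.of_forall fun α h => absurd h hP
    simp only [hP, forall_true_left]
    obtain ⟨hfin, hav⟩ := hC P hP
    have h1 : ∀ᵐ α : ℝ, ∀ k : ℕ, 1 ≤ k → ∀ b : ℕ, 2 ≤ b →
        ∀ ε : ℝ, 0 < ε → ∀ᶠ x : ℕ in atTop,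
          ∑ j ∈ range x, Real.sqrt (P.size k (Pool.Agent.X257.AE.pre b (s j) α)) ≤
            (1 + C P + ε) * x := by
      rw [ae_all_iff]
      intro k
      by_cases hk : 1 ≤ k
      swap
      · exact Eventually.of_forall fun α h => absurd h hk
      simp only [hk, forall_true_left]
      exact Pool.Agent.X257.AE.ae_sqrt_seq (size_nonneg P k) (hav k hk) s hs0 hs
    filter_upwards [h1] with α hα b hb
    refine ⟨fun ε hε => ?_, fun k hk ε hε => ?_⟩
    · filter_upwards [hα 1 le_rfl b hb (ε / 2) (by positivity)] with x hx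
      have h2 : ∑ j ∈ range x, (P.rank ⌊α * (b : ℝ) ^ s j⌋ : ℝ) ≤
          2 * ∑ j ∈ range x, Real.sqrt (P.size 1 (Pool.Agent.X257.AE.pre b (s j) α)) := by
        rw [mul_sum]
        exact sum_le_sum fun n _ => rank_le P hfin _
      refine h2.trans ((mul_le_mul_of_nonneg_left hx (by norm_num)).trans (le_of_eq ?_))
      ring
    · filter_upwards [hα k hk b hb ε hε] with x hx
      refine hx.trans (mul_le_mul_of_nonneg_right ?_ (Nat.cast_nonneg x))
      have := hC0 P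
      linarith

end Pool.Agent.Results.MP_788af2_nt.PrefixAverages
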