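import Pool.Agent.Results.MP_788af2_nt.BinaryFormFamilies
import Pool.Agent.X257.AE.Approx

/-!
# The average rank over the good rational approximations of almost every real number

Let `F_k = a_k ∏_i (l k i) ^ (m k i)`, `k = 0, 1, 2`, be binary forms with `F_0 - F_1 = F_2`, products of
pairwise non-proportional linear forms `l k i` (`i = 1, …, n`, `n` even) with odd exponents. The curves
`E_t : y² = x (x - F_0 (u, v)) (x - F_1 (u, v))`, `t = u / v` in lowest terms, are the fibres of an elliptic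
surface over the projective line with full rational 2-torsion. We show: for almost every real number `α`,
for ALL these surfaces, the average rank of the fibres `E_t` over the rational numbers `t = u / v` with
`|α - t| ≤ c / v²`, in particular (`c = 1`) over the convergents of the continued fraction of `α`, is
bounded: the sum of the ranks, divided by `log v`, over the `t` with `v ≤ Q` is at most a constant times
`log log Q`. (For almost every `α` the sum of `1 / log v` over the convergents has this size.) The same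
is true for `2 ^ (rank / 2)` instead of the rank. Moreover `2 ^ rank ≤ (log v) ^ (1 + ε)` for all but
finitely many of these `t`.
-/

set_option autoImplicit false

namespace Pool.Agent.Results.MP_788af2_nt.RationalApproximations

open Finset Filter MeasureTheory

/-- the curve `y² = x (x - A) (x - B)` -/
def E (A B : ℤ) : WeierstrassCurve ℚ := ⟨0, -((A : ℚ) + B), 0, (A : ℚ) * B, 0⟩

/-- the data of an elliptic surface: linear forms `l (k, i) = (α, β)`, which stands for `α u + β v`,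
exponents `m (k, i)` and integers `a_k` (`k = 0, 1, 2`, `i < n`) -/
structure Surface where
  /-- number of linear forms for each `k` -/
  n : ℕ
  /-- the linear forms -/
  l : Fin 3 × Fin n → ℤ × ℤ
  /-- the exponents -/
  m : Fin 3 × Fin n → ℕ
  /-- constants -/
  a : Fin 3 → ℤ

namespace Surface

/-- the value at `(u, v)` of the binary form `F_k = a_k ∏_i (l k i) ^ (m k i)` -/
def F (S : Surface) (k : Fin 3) (u v : ℤ) : ℤ :=
  S.a k * ∏ i : Fin S.n, ((S.l (k, i)).1 * u + (S.l (k, i)).2 * v) ^ S.m (k, i)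

/-- `n` is even, the exponents are odd, the `a_k` are not zero, the `3 n` linear forms are pairwise
non-proportional, and `F_0 - F_1 = F_2` -/
structure Ok (S : Surface) : Prop where
  even : Even S.n
  odd : ∀ j, Odd (S.m j)
  a_ne : ∀ k, S.a k ≠ 0
  not_prop : ∀ i j, i ≠ j → (S.l i).1 * (S.l j).2 ≠ (S.l j).1 * (S.l i).2
  sub : ∀ u v : ℤ, S.F 0 u v - S.F 1 u v = S.F 2 u v

/-- the fibre `E_t : y² = x (x - F_0 (u, v)) (x - F_1 (u, v))` at `t = u / v` -/
def fib (S : Surface) (t : ℚ) : WeierstrassCurve ℚ :=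
  E (S.F 0 t.num t.den) (S.F 1 t.num t.den)

/-- the fibre at `t` is an elliptic curve -/
def Smooth (S : Surface) (t : ℚ) : Prop := ∀ k, S.F k t.num t.den ≠ 0

open Classical in
/-- the rank of the fibre at `t`, zero for a singular fibre -/
noncomputable def rank (S : Surface) (t : ℚ) : ℕ :=
  if S.Smooth t then Module.finrank ℤ (S.fib t).toAffine.Point else 0

open Classical in
/-- `2 ^ rank` for the fibre at `t`, zero for a singular fibre -/
noncomputable def size (S : Surface) (t : ℚ) : ℝ :=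
  if S.Smooth t then 2 ^ Module.finrank ℤ (S.fib t).toAffine.Point else 0

end Surface

/-- The rational numbers `t` with denominator `2 ≤ v ≤ Q` and `|α - t| ≤ c / v²`. -/
def Approx (α : ℝ) (c Q : ℕ) : Set ℚ :=
  {t | 2 ≤ t.den ∧ t.den ≤ Q ∧ |α - t| ≤ c / (t.den : ℝ) ^ 2}

/-! ### Proof -/

instance : Countable Surface := by
  have h : Function.Injective (fun S : Surface => (⟨S.n, S.l, S.m, S.a⟩ :
      Σ n : ℕ, (Fin 3 × Fin n → ℤ × ℤ) × (Fin 3 × Fin n → ℕ) × (Fin 3 → ℤ))) := by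
    rintro ⟨n, l, m, a⟩ ⟨n', l', m', a'⟩ h
    simp only [Sigma.mk.injEq] at h
    obtain ⟨rfl, h⟩ := h
    simp only [heq_eq_eq, Prod.mk.injEq] at h
    obtain ⟨rfl, rfl, rfl⟩ := h
    rfl
  exact h.countable

open Classical in
/-- `2 ^ rank` for coprime pairs -/
noncomputable def FF (S : Surface) (t : ℤ × ℤ) : ℝ :=
  if IsCoprime t.1 t.2 ∧ ∀ k, S.F k t.1 t.2 ≠ 0 then
    2 ^ Module.finrank ℤ (E (S.F 0 t.1 t.2) (S.F 1 t.1 t.2)).toAffine.Point else 0

theorem FF_nonneg (S : Surface) (t : ℤ × ℤ) : 0 ≤ FF S t := by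
  unfold FF
  split_ifs <;> positivity

theorem FF_nd (S : Surface) (t : ℚ) : FF S (Pool.Agent.X257.AE.nd t) = S.size t := by
  classical
  unfold FF Surface.size
  refine if_congr ?_ rfl rfl
  unfold Pool.Agent.X257.AE.nd Surface.Smooth
  refine ⟨fun h => h.2, fun h => ⟨?_, h⟩⟩
  rw [Int.isCoprime_iff_gcd_eq_one]
  exact t.reduced

theorem box {S : Surface} (hS : S.Ok) : ∃ p : ℝ, 0 ≤ p ∧ Pool.Agent.X257.AE.BoxAvg (FF S) p 1 := by
  classical
  obtain ⟨C, hC⟩ := Pool.Agent.Results.MP_788af2_nt.BinaryFormFamilies.result S.n hS.even S.l S.m hS.odd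
    S.a hS.a_ne hS.not_prop hS.sub 4
  have h : Pool.Agent.X257.AE.BoxAvg (FF S) C 1 := by
    intro X U V hX hU hV
    have hU' : U.natAbs ≤ X ^ 4 := by
      rw [Int.abs_eq_natAbs] at hU
      exact_mod_cast hU
    have hV' : V.natAbs ≤ X ^ 4 := by
      rw [Int.abs_eq_natAbs] at hV
      exact_mod_cast hV
    refine le_trans (le_of_eq ?_) (hC X U V hX hU' hV')
    rw [sum_filter]
    refine sum_congr rfl fun t _ => ?_
    unfold FF
    exact if_congr Iff.rfl rfl rfl
  refine ⟨C, ?_, h⟩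
  have h1 := h 1 0 0 le_rfl (by norm_num) (by norm_num)
  have h2 : 0 ≤ ∑ t ∈ Ioc (0 : ℤ) (0 + ((1 : ℕ) : ℤ)) ×ˢ Ioc (0 : ℤ) (0 + ((1 : ℕ) : ℤ)), FF S t :=
    sum_nonneg fun t _ => FF_nonneg S t
  have h3 : 0 ≤ C * (((1 : ℕ) : ℝ)) ^ 2 := h2.trans h1
  rw [Nat.cast_one, one_pow, mul_one] at h3
  exact h3

theorem exC (S : Surface) (c : ℕ) (K : ℤ) : ∃ C : ℝ, 0 ≤ C ∧ (S.Ok → ∀ᵐ α : ℝ,
    α ∈ Set.Ico (K : ℝ) (K + 1) →
      (∀ᶠ Q : ℕ in atTop, ∑ᶠ t ∈ Approx α c Q, Real.sqrt (S.size t) / Real.log t.den ≤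
        C * Real.log (Real.log Q)) ∧
      ∀ ε : ℝ, 0 < ε → ∃ Q : ℕ, ∀ t : ℚ, Q ≤ t.den → |α - t| ≤ c / (t.den : ℝ) ^ 2 →
        S.size t ≤ (Real.log t.den) ^ (1 + ε)) := by
  by_cases hS : S.Ok
  · obtain ⟨p, hp, hB⟩ := box hS
    obtain ⟨C, hC, h⟩ := Pool.Agent.X257.AE.ae_ap (FF_nonneg S) hp hB K c
    refine ⟨C, hC, fun _ => ?_⟩
    filter_upwards [h] with α hα hK
    obtain ⟨h1, h2⟩ := hα hK
    simp only [FF_nd] at h1 h2
    exact ⟨h1, h2⟩
  · exact ⟨0, le_rfl, fun h => absurd h hS⟩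

theorem rank_le (S : Surface) (t : ℚ) : (S.rank t : ℝ) ≤ 2 * Real.sqrt (S.size t) := by
  classical
  unfold Surface.rank Surface.size
  by_cases ht : S.Smooth t
  swap
  · rw [if_neg ht, if_neg ht]
    simp
  rw [if_pos ht, if_pos ht]
  set r := Module.finrank ℤ (S.fib t).toAffine.Point
  have h2 : ((r : ℝ)) ^ 2 ≤ 4 * 2 ^ r := by
    have h3 : ∀ m : ℕ, m ^ 2 ≤ 4 * 2 ^ m := by
      intro m
      have h4 : ∀ j : ℕ, (j + 4) ^ 2 ≤ 2 ^ (j + 4) := by
        intro j
        induction j with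
        | zero => norm_num
        | succ j ih =>
          have h5 : 2 ^ (j + 1 + 4) = 2 * 2 ^ (j + 4) := by ring
          have h6 : (j + 1 + 4) ^ 2 ≤ 2 * (j + 4) ^ 2 := by
            have h7 : 2 * (j + 4) ^ 2 = (j + 1 + 4) ^ 2 + (j ^ 2 + 6 * j + 7) := by ring
            rw [h7]
            exact Nat.le_add_right _ _
          rw [h5]
          exact h6.trans (Nat.mul_le_mul_left 2 ih)
      rcases lt_or_ge m 4 with hm | hm
      · interval_cases m <;> norm_num
      · obtain ⟨j, rfl⟩ : ∃ j, m = j + 4 := ⟨m - 4, by omega⟩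
        have := h4 j
        omega
    exact_mod_cast h3 r
  have h5 : (r : ℝ) = Real.sqrt ((r : ℝ) ^ 2) := (Real.sqrt_sq (Nat.cast_nonneg r)).symm
  have h6 : (2 : ℝ) * Real.sqrt ((2 : ℝ) ^ r) = Real.sqrt (4 * 2 ^ r) := by
    rw [Real.sqrt_mul (by norm_num)]
    congr 1
    rw [show (4 : ℝ) = 2 ^ 2 by norm_num, Real.sqrt_sq (by norm_num)]
  rw [h5, h6]
  exact Real.sqrt_le_sqrt h2

theorem finite_approx (α : ℝ) (c Q : ℕ) : (Approx α c Q).Finite := by
  classical
  have hmaps : ∀ t ∈ Approx α c Q, Pool.Agent.X257.AE.nd t ∈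
      ((range Q).biUnion (fun j => Pool.Agent.X257.AE.Pr c j (Pool.Agent.X257.AE.pre 4 j α)) :
        Finset (ℤ × ℤ)) := by
    rintro t ⟨h1, h2, h3⟩
    obtain ⟨j, h4, h5, h6⟩ := Pool.Agent.X257.AE.nd_mem h1 h3
    rw [mem_biUnion]
    refine ⟨j, ?_, h6⟩
    rw [mem_range]
    have : j < 2 ^ j := Nat.lt_two_pow_self
    omega
  exact Set.Finite.of_injOn (f := Pool.Agent.X257.AE.nd) (fun t ht => mem_coe.2 (hmaps t ht))
    Pool.Agent.X257.AE.nd_inj.injOn (finite_toSet _)

/-- **Theorem.** There are constants `C(S, c, K)` such that for almost every real `α`, for all the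
surfaces `S` which satisfy the conditions `Ok` and all natural numbers `c`: for all large `Q` the sums
of `rank / log v` and of `2 ^ (rank / 2) / log v` over the fibres at the rational numbers `t` with
denominator `2 ≤ v ≤ Q` and `|α - t| ≤ c / v²` are at most `C(S, c, ⌊α⌋) log log Q`, and for every
`ε > 0` all the elliptic curves `E_t` for the `t` with `|α - t| ≤ c / v²` and large denominator `v`
have `2 ^ rank ≤ (log v) ^ (1 + ε)`. -/
theorem result : ∃ C : Surface → ℕ → ℤ → ℝ, ∀ᵐ α : ℝ, ∀ S : Surface, S.Ok → ∀ c : ℕ,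
    (∀ᶠ Q : ℕ in atTop, ∑ᶠ t ∈ Approx α c Q, (S.rank t : ℝ) / Real.log t.den ≤
      C S c ⌊α⌋ * Real.log (Real.log Q)) ∧
    (∀ᶠ Q : ℕ in atTop, ∑ᶠ t ∈ Approx α c Q, Real.sqrt (S.size t) / Real.log t.den ≤
      C S c ⌊α⌋ * Real.log (Real.log Q)) ∧
    ∀ ε : ℝ, 0 < ε → ∃ Q : ℕ, ∀ t : ℚ, Q ≤ t.den → |α - t| ≤ c / (t.den : ℝ) ^ 2 →
      S.size t ≤ (Real.log t.den) ^ (1 + ε) := by
  classical
  choose C hC0 hC using exC
  refine ⟨fun S c K => 2 * C S c K, ?_⟩
  rw [ae_all_iff]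
  intro S
  by_cases hS : S.Ok
  swap
  · exact Eventually.of_forall fun α h => absurd h hS
  simp only [hS, forall_true_left]
  rw [ae_all_iff]
  intro c
  have h := ae_all_iff.2 (fun K : ℤ => hC S c K hS)
  filter_upwards [h] with α hα
  obtain ⟨h1, h2⟩ := hα ⌊α⌋ ⟨Int.floor_le α, Int.lt_floor_add_one α⟩
  have hll : ∀ᶠ Q : ℕ in atTop, 0 ≤ Real.log (Real.log (Q : ℝ)) :=
    (Real.tendsto_log_atTop.comp
      (Real.tendsto_log_atTop.comp tendsto_natCast_atTop_atTop)).eventually_ge_atTop 0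
  refine ⟨?_, ?_, h2⟩
  · filter_upwards [h1] with Q hQ
    have h3 : ∑ᶠ t ∈ Approx α c Q, (S.rank t : ℝ) / Real.log t.den ≤
        2 * ∑ᶠ t ∈ Approx α c Q, Real.sqrt (S.size t) / Real.log t.den := by
      rw [finsum_mem_eq_finite_toFinset_sum _ (finite_approx α c Q),
        finsum_mem_eq_finite_toFinset_sum _ (finite_approx α c Q), mul_sum]
      refine sum_le_sum fun t _ => ?_
      rw [← mul_div_assoc]
      exact div_le_div_of_nonneg_right (rank_le S t) (Real.log_natCast_nonneg t.den)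
    refine h3.trans ((mul_le_mul_of_nonneg_left hQ (by norm_num)).trans (le_of_eq ?_))
    ring
  · filter_upwards [h1, hll] with Q hQ hQ0
    refine hQ.trans ?_
    have := mul_nonneg (hC0 S c ⌊α⌋) hQ0
    change _ ≤ 2 * C S c ⌊α⌋ * Real.log (Real.log Q)
    linarith

end Pool.Agent.Results.MP_788af2_nt.RationalApproximations
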