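import Pool.Agent.X278.AV.Height

/-!
# The average rank of elliptic curves: the two orders of limits

For `E : y² = x³ + A x + B` put `N_p = #{affine points modulo p}` and, for fixed `γ > π/2`,

`S_E(T) = ∑_{p ∤ 6 (4 A³ + 27 B²)} log((N_p + 1) / p) · exp(iγ u) / Γ(1 + u)`, `u = log p / T`,

an absolutely convergent sum over the primes: the logarithm of the original product of Birch and Swinnerton-Dyer with a
smooth rotated weight in place of the cut-off `log p ≤ T`. For one curve `E` whose `L`-function is meromorphic at the real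
points of `[1, 3/2]` (all curves over `ℚ`, by modularity)

`Re S_E(T) / log T → ord_{s=1} L(E, s)` as `T → ∞`, an integer;

nothing is assumed on zeros. We show, without any hypothesis, that over the family of the question (all elliptic curves
over `ℚ`, ordered by the height) for fixed `T` the average of `S_E(T)` converges as `X → ∞`, to a function
`½ (log T - Λ) + C + O(1/T)`, and that for large `T` all but a proportion `≤ V / (δ² log T)` of all curves satisfy
`|Re S_E(T) / log T - 1/2| ≤ δ`. So for the averages `R(X, T)` of `Re S_E(T) / log T` over the curves of height `≤ X`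

`lim_T lim_X R(X, T) = 1/2`,  `lim_T R(X, T) = ` the average analytic rank up to height `X`,

and the average analytic rank tends to `1/2` IF AND ONLY IF the two limits can be interchanged.

Proof: `∑_{A, B mod p} a_p² = p² (p - 1)`, equidistribution of the minimal pairs modulo `p` and modulo `p q`, the
rotated sum of the `1/p`, dominated convergence; modules `Pool.Agent.X278.AV`.
-/

set_option autoImplicit false

open Filter Topology Asymptotics

namespace Pool.Agent.Results.MP_788af2_nt.TwoOrdersOfLimits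

/-- The prime `p` does not divide `6 (4 A³ + 27 B²)`. -/
def Good (A B : ℤ) (p : ℕ) : Prop := ¬ (p : ℤ) ∣ 6 * (4 * A ^ 3 + 27 * B ^ 2)

/-- `N_p`, the number of affine points of `y² = x³ + A x + B` modulo `p`. -/
noncomputable def points (A B : ℤ) (p : ℕ) : ℕ :=
  Nat.card {P : ZMod p × ZMod p // P.2 ^ 2 = P.1 ^ 3 + (A : ZMod p) * P.1 + (B : ZMod p)}

open Classical in
/-- The term `log((N_p + 1) / p) exp(iγu) / Γ(1 + u)`, `u = log p / T`; `0` if `p` divides `6 (4 A³ + 27 B²)`. -/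
noncomputable def term (A B : ℤ) (γ T : ℝ) (p : Nat.Primes) : ℂ :=
  if Good A B p then
    Real.log (((points A B p : ℝ) + 1) / (p : ℕ)) *
      (Complex.exp ((γ * (Real.log (p : ℕ) / T) : ℝ) * Complex.I) /
        (Real.Gamma (1 + Real.log (p : ℕ) / T) : ℝ))
  else 0

/-- `S_E(T)`. -/
noncomputable def S (A B : ℤ) (γ T : ℝ) : ℂ := ∑' p, term A B γ T p

/-- The curves of height at most `X`: the pairs `(A, B)` with `4 A³ + 27 B² ≠ 0`, such that no prime `p` satisfies
both `p⁴ ∣ A` and `p⁶ ∣ B`, with `4 |A|³ ≤ X` and `27 B² ≤ X` (hence `|A|, |B| ≤ X`). -/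
noncomputable def family (X : ℕ) : Finset (ℤ × ℤ) :=
  open Classical in
  ((Finset.Icc (-(X : ℤ)) X) ×ˢ (Finset.Icc (-(X : ℤ)) X)).filter fun E =>
    4 * E.1 ^ 3 + 27 * E.2 ^ 2 ≠ 0 ∧ (∀ p : ℕ, p.Prime → ¬ ((p : ℤ) ^ 4 ∣ E.1 ∧ (p : ℤ) ^ 6 ∣ E.2)) ∧
      4 * |E.1| ^ 3 ≤ X ∧ 27 * E.2 ^ 2 ≤ X

/-- The average of a function over the curves of height at most `X`. -/
noncomputable def average (X : ℕ) (f : ℤ × ℤ → ℝ) : ℝ := (∑ E ∈ family X, f E) / (family X).card

/-- `R(X, T)`, the average of `Re S_E(T) / log T` over the curves of height at most `X`. -/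
noncomputable def R (γ : ℝ) (X : ℕ) (T : ℝ) : ℝ := average X fun E => (S E.1 E.2 γ T).re / Real.log T

open Classical in
/-- `F` is the incomplete `L`-series of `y² = x³ + A x + B` for `Re s > 3/2`. -/
def IsLSeries (A B : ℤ) (F : ℂ → ℂ) : Prop :=
  ∀ s : ℂ, 3 / 2 < s.re → HasProd (fun p : Nat.Primes => if Good A B p then
    (1 - (((p : ℕ) : ℂ) - points A B p) * ((p : ℕ) : ℂ) ^ (-s) + ((p : ℕ) : ℂ) ^ (1 - 2 * s))⁻¹ else 1) (F s)

/-- The constant `Λ(γ) = ∫_0^∞ (e^{-t} - e^{iγt} / Γ(1 + t)) dt / t`. -/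
noncomputable def Lambda (γ : ℝ) : ℂ := ∫ t in Set.Ioi (0 : ℝ),
  (Complex.exp (-(t : ℂ)) - Complex.exp ((γ * t : ℝ) * Complex.I) * ((Real.Gamma (1 + t))⁻¹ : ℝ)) / t

open Classical in
/-- The rank of `E(ℚ)`. -/
noncomputable def rank (A B : ℤ) : ℕ :=
  Module.finrank ℤ ({ a₁ := 0, a₂ := 0, a₃ := 0, a₄ := (A : ℚ), a₆ := (B : ℚ) } : WeierstrassCurve ℚ).toAffine.Point

open Pool.Agent.X278.AV Pool.Agent.X278.OP

theorem good_iff (A B : ℤ) (p : ℕ) : Good A B p ↔ GoodQ A B p := by
  unfold Good GoodQ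
  rw [← ZMod.intCast_zmod_eq_zero_iff_dvd]
  push_cast
  rfl

theorem term_eq (A B : ℤ) (γ T : ℝ) (p : Nat.Primes) :
    term A B γ T p = ((ff (A : ZMod p) (B : ZMod p) : ℝ) : ℂ) * Wt γ (Real.log (p : ℕ) / T) := by
  unfold term ff
  by_cases h : Good A B p
  · have h' : ¬ ((6 : ZMod p) * (4 * (A : ZMod p) ^ 3 + 27 * (B : ZMod p) ^ 2) = 0) := (good_iff A B p).1 h
    rw [if_pos h, if_neg h', ZMod.card]
    unfold Wt Pool.Agent.W189.ML.om
    rw [Complex.ofReal_inv, ← div_eq_mul_inv]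
    rfl
  · have h' : (6 : ZMod p) * (4 * (A : ZMod p) ^ 3 + 27 * (B : ZMod p) ^ 2) = 0 := by
      by_contra h2
      exact h ((good_iff A B p).2 h2)
    rw [if_neg h, if_pos h', Complex.ofReal_zero, zero_mul]

theorem S_eq (x : Fin 2 → ℤ) (γ T : ℝ) : S (x 0) (x 1) γ T = SS fH γ T x := by
  unfold S SS
  exact tsum_congr fun p => term_eq _ _ γ T p

theorem S_eq' (A B : ℤ) (γ T : ℝ) : S A B γ T = SQ A B γ T := by
  unfold S SQ
  exact tsum_congr fun p => term_eq _ _ γ T p

theorem family_eq (X : ℕ) : family X = (Fam eH ZH (abH X)).map (finTwoArrowEquiv ℤ).toEmbedding := by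
  classical
  ext E
  rw [Finset.mem_map_equiv]
  unfold family Fam
  rw [Finset.mem_filter, Finset.mem_filter, mem_Box, Finset.mem_product, Finset.mem_Icc, Finset.mem_Icc]
  have e0 : (finTwoArrowEquiv ℤ).symm E 0 = E.1 := rfl
  have e1 : (finTwoArrowEquiv ℤ).symm E 1 = E.2 := rfl
  have h1 : (∀ j, |(finTwoArrowEquiv ℤ).symm E j| ≤ (abH X j : ℤ)) ↔ (4 * |E.1| ^ 3 ≤ X ∧ 27 * E.2 ^ 2 ≤ (X : ℤ)) := by
    rw [Fin.forall_fin_two, e0, e1]
    have h2 : (|E.1| ≤ (abH X 0 : ℤ)) ↔ 4 * |E.1| ^ 3 ≤ (X : ℤ) := by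
      have h3 : abH X 0 = aH X := rfl
      rw [h3, Int.abs_eq_natAbs]
      have := le_aH (X := X) (n := E.1.natAbs)
      exact_mod_cast this
    have h4 : (|E.2| ≤ (abH X 1 : ℤ)) ↔ 27 * E.2 ^ 2 ≤ (X : ℤ) := by
      have h3 : abH X 1 = bH X := rfl
      rw [h3, ← sq_abs E.2, Int.abs_eq_natAbs]
      have := le_bH (X := X) (n := E.2.natAbs)
      exact_mod_cast this
    rw [h2, h4]
  have h2 : Pool.Agent.X278.AV.Min eH ((finTwoArrowEquiv ℤ).symm E) ↔
      (∀ p : ℕ, p.Prime → ¬ ((p : ℤ) ^ 4 ∣ E.1 ∧ (p : ℤ) ^ 6 ∣ E.2)) := by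
    unfold Pool.Agent.X278.AV.Min
    refine forall_congr' fun p => forall_congr' fun _ => not_congr ?_
    rw [Fin.forall_fin_two, e0, e1]
    rfl
  have h3 : ZH ((finTwoArrowEquiv ℤ).symm E) ↔ 4 * E.1 ^ 3 + 27 * E.2 ^ 2 = 0 := Iff.rfl
  rw [h1, h2, h3]
  constructor
  · rintro ⟨-, a1, a2, a3⟩
    exact ⟨a3, a2, a1⟩
  · rintro ⟨⟨a1, a2⟩, a3, a4⟩
    have b1 : |E.1| ≤ (X : ℤ) := by
      have h0 := abs_nonneg E.1
      have : |E.1| ≤ |E.1| ^ 3 := by
        rcases h0.eq_or_lt with h | h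
        · rw [← h]; norm_num
        · have : 1 ≤ |E.1| := h
          nlinarith [mul_nonneg h0 h0]
      nlinarith
    have b2 : |E.2| ≤ (X : ℤ) := by
      have h0 := abs_nonneg E.2
      have h5 := sq_abs E.2
      have : |E.2| ≤ |E.2| ^ 2 := by
        rcases h0.eq_or_lt with h | h
        · rw [← h]; norm_num
        · have : 1 ≤ |E.2| := h
          nlinarith
      nlinarith
    exact ⟨⟨abs_le.1 b1, abs_le.1 b2⟩, a4, a3, a1, a2⟩

theorem card_eq (X : ℕ) : (family X).card = (Fam eH ZH (abH X)).card := by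
  rw [family_eq, Finset.card_map]

/-- **The average rank: the two orders of limits.** -/
theorem result (γ : ℝ) (hγ : Real.pi / 2 < γ) :
    -- absolute convergence
    (∀ (A B : ℤ) (T : ℝ), 0 < T → Summable fun p => ‖term A B γ T p‖) ∧
    ∃ (M : ℝ → ℂ) (C : ℂ) (V : ℝ),
      -- A. the average for fixed `T`
      (∀ T : ℝ, 0 < T →
        Tendsto (fun X : ℕ => (∑ E ∈ family X, S E.1 E.2 γ T) / (family X).card) atTop (𝓝 (M T))) ∧
      (fun T : ℝ => M T - (1 / 2 * (Real.log T - Lambda γ) + C)) =O[atTop] (fun T : ℝ => 1 / T) ∧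
      -- B. almost all curves
      (∀ δ : ℝ, 0 < δ → ∀ᶠ T : ℝ in atTop, ∀ᶠ X : ℕ in atTop,
        (((open Classical in (family X).filter fun E => δ < |(S E.1 E.2 γ T).re / Real.log T - 1 / 2|).card : ℕ) : ℝ) ≤
          V / (δ ^ 2 * Real.log T) * (family X).card) ∧
      -- C. one curve; the averages of the analytic ranks
      ∀ L : ℤ × ℤ → ℂ → ℂ,
        (∀ E : ℤ × ℤ, 4 * E.1 ^ 3 + 27 * E.2 ^ 2 ≠ 0 → IsLSeries E.1 E.2 (L E) ∧
          ∀ x : ℝ, 1 ≤ x → x ≤ 3 / 2 → MeromorphicAt (L E) (x : ℂ)) →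
        ∃ m : ℤ × ℤ → ℤ,
          (∀ E : ℤ × ℤ, 4 * E.1 ^ 3 + 27 * E.2 ^ 2 ≠ 0 → meromorphicOrderAt (L E) 1 = m E ∧
            Tendsto (fun T : ℝ => (S E.1 E.2 γ T).re / Real.log T) atTop (𝓝 (m E : ℝ))) ∧
          (∀ X : ℕ, Tendsto (R γ X) atTop (𝓝 (average X fun E => m E))) ∧
          (∀ T : ℝ, 0 < T → Tendsto (fun X => R γ X T) atTop (𝓝 ((M T).re / Real.log T))) ∧
          Tendsto (fun T : ℝ => (M T).re / Real.log T) atTop (𝓝 (1 / 2)) ∧
          -- the average analytic rank is `1/2` iff the limits can be interchanged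
          (Tendsto (fun X : ℕ => average X fun E => m E) atTop (𝓝 (1 / 2)) ↔
            Tendsto (fun X : ℕ => limUnder atTop (R γ X)) atTop
              (𝓝 (limUnder atTop fun T : ℝ => limUnder atTop fun X : ℕ => R γ X T))) ∧
          -- if order = rank for all curves: Q1
          ((∀ E : ℤ × ℤ, 4 * E.1 ^ 3 + 27 * E.2 ^ 2 ≠ 0 → m E = rank E.1 E.2) →
            (Tendsto (fun X : ℕ => average X fun E => rank E.1 E.2) atTop (𝓝 (1 / 2)) ↔
              Tendsto (fun X : ℕ => limUnder atTop (R γ X)) atTop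
                (𝓝 (limUnder atTop fun T : ℝ => limUnder atTop fun X : ℕ => R γ X T)))) := by
  classical
  have W := sysH
  obtain ⟨C, hC⟩ := W.asc hγ
  obtain ⟨V, hV⟩ := W.lln hγ
  have hfirst : ∀ T : ℝ, 0 < T →
      Tendsto (fun X : ℕ => (∑ E ∈ family X, S E.1 E.2 γ T) / (family X).card) atTop (𝓝 (AA eH fH γ T)) := by
    intro T hT
    refine (W.first γ hT).congr fun X => ?_
    unfold meanC
    rw [card_eq, family_eq, Finset.sum_map]
    congr 1
    exact Finset.sum_congr rfl fun x _ => (S_eq x γ T).symm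
  have hre : ∀ T : ℝ, 0 < T → Tendsto (fun X => R γ X T) atTop (𝓝 ((AA eH fH γ T).re / Real.log T)) := by
    intro T hT
    have h1 := ((Complex.continuous_re.tendsto _).comp (hfirst T hT)).div_const (Real.log T)
    refine h1.congr fun X => ?_
    unfold R average
    simp only [Function.comp_apply]
    rw [← Finset.sum_div, Complex.div_natCast_re, Complex.re_sum]
    ring
  have hlim : Tendsto (fun T : ℝ => (AA eH fH γ T).re / Real.log T) atTop (𝓝 (1 / 2)) := by
    have h1 := (Complex.continuous_re.tendsto _).comp hC.lim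
    have e1 : (((1 / 2 : ℝ) : ℂ)).re = 1 / 2 := Complex.ofReal_re _
    rw [e1] at h1
    refine h1.congr fun T => ?_
    simp only [Function.comp_apply]
    rw [Complex.div_ofReal_re]
  refine ⟨fun A B T hT => ?_, AA eH fH γ, C, V, hfirst, ?_, ?_, fun L hL => ?_⟩
  · obtain ⟨B', hB, hb, Lc⟩ := W.loc
    refine Summable.of_nonneg_of_le (fun _ => norm_nonneg _) (fun p => ?_) (wt_sum (γ := γ) hT hB)
    rw [term_eq, norm_mul, Complex.norm_real, Real.norm_eq_abs]
    gcongr
    exact hb p ![(A : ZMod p), (B : ZMod p)]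
  · unfold Asc at hC
    refine hC.congr_left fun T => ?_
    push_cast
    rfl
  · intro δ hδ
    filter_upwards [hV δ hδ] with T hT
    filter_upwards [hT] with X hX
    rw [card_eq]
    refine le_trans ?_ hX
    have h1 : ((family X).filter fun E => δ < |(S E.1 E.2 γ T).re / Real.log T - 1 / 2|).card ≤
        ((Fam eH ZH (abH X)).filter fun x => δ < ‖SS fH γ T x / Real.log T - ((1 / 2 : ℝ) : ℂ)‖).card := by
      rw [family_eq, Finset.filter_map, Finset.card_map]
      refine Finset.card_le_card fun x hx => ?_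
      rw [Finset.mem_filter] at hx ⊢
      refine ⟨hx.1, lt_of_lt_of_le hx.2 ?_⟩
      have e1 : (S (x 0) (x 1) γ T).re / Real.log T - 1 / 2 =
          (SS fH γ T x / Real.log T - ((1 / 2 : ℝ) : ℂ)).re := by
        rw [Complex.sub_re, Complex.div_ofReal_re, Complex.ofReal_re, S_eq]
      show |(S (x 0) (x 1) γ T).re / Real.log T - 1 / 2| ≤ _
      rw [e1]
      exact Complex.abs_re_le_norm _
    exact_mod_cast h1
  · have hgr : ∀ E : ℤ × ℤ, 4 * E.1 ^ 3 + 27 * E.2 ^ 2 ≠ 0 → ∃ m : ℤ, meromorphicOrderAt (L E) 1 = m ∧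
        Tendsto (fun T : ℝ => (S E.1 E.2 γ T).re / Real.log T) atTop (𝓝 (m : ℝ)) := by
      intro E hE
      obtain ⟨h1, h2⟩ := hL E hE
      have h3 : ∀ s : ℂ, 3 / 2 < s.re → HasProd (efQ E.1 E.2 s) (L E s) := by
        intro s hs
        have h4 := h1 s hs
        have e1 : efQ E.1 E.2 s = fun p : Nat.Primes => if Good E.1 E.2 p then
            (1 - (((p : ℕ) : ℂ) - points E.1 E.2 p) * ((p : ℕ) : ℂ) ^ (-s) + ((p : ℕ) : ℂ) ^ (1 - 2 * s))⁻¹
            else 1 := by
          funext p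
          unfold efQ
          by_cases h : Good E.1 E.2 p
          · rw [if_pos h, if_pos ((good_iff _ _ _).1 h)]
            rfl
          · rw [if_neg h, if_neg (fun h' => h ((good_iff _ _ _).2 h'))]
        rw [e1]
        exact h4
      obtain ⟨m, hm1, hm2⟩ := SQ_growth E.1 E.2 h3 h2 hγ
      refine ⟨m, hm1, ?_⟩
      refine hm2.lim.congr fun T => ?_
      rw [S_eq']
    choose! m hm1 hm2 using hgr
    have hX : ∀ X : ℕ, Tendsto (R γ X) atTop (𝓝 (average X fun E => m E)) := by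
      intro X
      unfold average
      have h1 : Tendsto (fun T => ∑ E ∈ family X, (S E.1 E.2 γ T).re / Real.log T) atTop
          (𝓝 (∑ E ∈ family X, (m E : ℝ))) :=
        tendsto_finsetSum _ fun E hE => hm2 E (by
          unfold family at hE
          exact (Finset.mem_filter.1 hE).2.1)
      exact h1.div_const _
    have hiff : Tendsto (fun X : ℕ => average X fun E => m E) atTop (𝓝 (1 / 2)) ↔
        Tendsto (fun X : ℕ => limUnder atTop (R γ X)) atTop
          (𝓝 (limUnder atTop fun T : ℝ => limUnder atTop fun X : ℕ => R γ X T)) := by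
      have h1 : (fun X : ℕ => limUnder atTop (R γ X)) = fun X : ℕ => average X fun E => m E := by
        funext X
        exact (hX X).limUnder_eq
      have h2 : (limUnder atTop fun T : ℝ => limUnder atTop fun X : ℕ => R γ X T) = 1 / 2 := by
        refine Tendsto.limUnder_eq ?_
        refine hlim.congr' ?_
        filter_upwards [eventually_gt_atTop (0 : ℝ)] with T hT
        exact (hre T hT).limUnder_eq.symm
      rw [h1, h2]
    refine ⟨m, fun E hE => ⟨hm1 E hE, hm2 E hE⟩, hX, hre, hlim, hiff, fun hBSD => ?_⟩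
    rw [← hiff]
    have h3 : ∀ X : ℕ, (average X fun E => (rank E.1 E.2 : ℝ)) = average X fun E => m E := by
      intro X
      unfold average
      congr 1
      refine Finset.sum_congr rfl fun E hE => ?_
      have h4 : 4 * E.1 ^ 3 + 27 * E.2 ^ 2 ≠ 0 := by
        unfold family at hE
        exact (Finset.mem_filter.1 hE).2.1
      simp only [hBSD E h4]
      push_cast
      rfl
    simp only [h3]

end Pool.Agent.Results.MP_788af2_nt.TwoOrdersOfLimits
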